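import Pool.Agent.Lib_helper68.MC.Defs

/-! Project MC (MP_b08f5f_an, microcanonical): block NT (finite net of test functions). -/

set_option autoImplicit false

namespace Pool.Agent.Lib_helper68.MC

open MeasureTheory Filter Topology Set
open scoped ComplexConjugate ENNReal NNReal

noncomputable section

/-- the retraction onto the ball of radius `M` -/
theorem NT_ret {M : ℝ} (hM : 1 ≤ M) : ∃ q : ℂ → Metric.closedBall (0 : ℂ) M,
    Continuous q ∧ ∀ x : ℂ, ‖x‖ ≤ M → (q x : ℂ) = x := by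
  have hM0 : 0 < M := by linarith
  have key : ∀ x : ℂ, (M / max M ‖x‖) • x ∈ Metric.closedBall (0 : ℂ) M := by
    intro x
    have h1 : 0 < max M ‖x‖ := lt_max_of_lt_left hM0
    rw [mem_closedBall_zero_iff, norm_smul, Real.norm_eq_abs, abs_of_nonneg (by positivity),
      div_mul_eq_mul_div, div_le_iff₀ h1]
    exact mul_le_mul_of_nonneg_left (le_max_right _ _) hM0.le
  refine ⟨fun x => ⟨(M / max M ‖x‖) • x, key x⟩, ?_, ?_⟩
  · refine Continuous.subtype_mk ?_ _
    refine Continuous.smul (Continuous.div continuous_const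
      (continuous_const.max continuous_norm) ?_) continuous_id
    intro x
    exact (lt_max_of_lt_left hM0).ne'
  · intro x hx
    simp only [max_eq_left hx, div_self hM0.ne', one_smul]

theorem NT_fun {κ : ℝ} (hκ : 0 < κ) : ∃ G : Set (ℂ → ℝ), G.Finite ∧
    (∀ g ∈ G, Continuous g ∧ ∃ C, ∀ x, |g x| ≤ C) ∧
    ∀ Φ : ℂ → ℝ, LipschitzWith 1 Φ → Φ 0 = 0 →
      ∃ g ∈ G, ∀ x, |Φ x - g x| ≤ κ * (1 + ‖x‖ ^ 2) := by
  obtain ⟨M, hM1, hM2⟩ : ∃ M : ℝ, 1 ≤ M ∧ 2 ≤ κ * M := by
    refine ⟨max 1 (2 / κ), le_max_left _ _, ?_⟩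
    calc (2 : ℝ) = κ * (2 / κ) := by field_simp
      _ ≤ κ * max 1 (2 / κ) := mul_le_mul_of_nonneg_left (le_max_right _ _) hκ.le
  have hM0 : 0 < M := by linarith
  have : CompactSpace (Metric.closedBall (0 : ℂ) M) :=
    isCompact_iff_compactSpace.1 (isCompact_closedBall _ _)
  let K := Metric.closedBall (0 : ℂ) M
  let A : Set (BoundedContinuousFunction K ℝ) :=
    {f | LipschitzWith 1 f ∧ ∀ x, f x ∈ Icc (-M) M}
  have hA : IsCompact A := by
    refine BoundedContinuousFunction.arzela_ascoli₂ (Icc (-M) M) isCompact_Icc A ?_ ?_ ?_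
    · have h1 : A = (⋂ x : K, ⋂ y : K, {f : BoundedContinuousFunction K ℝ |
          dist (f x) (f y) ≤ dist x y}) ∩ ⋂ x : K, {f : BoundedContinuousFunction K ℝ |
          f x ∈ Icc (-M) M} := by
        ext f
        simp only [A, mem_ofPred_eq, mem_inter_iff, mem_iInter]
        constructor
        · rintro ⟨hf, hf'⟩
          exact ⟨fun x y => by simpa using hf.dist_le_mul x y, hf'⟩
        · rintro ⟨hf, hf'⟩
          exact ⟨LipschitzWith.of_dist_le_mul (fun x y => by simpa using hf x y), hf'⟩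
      rw [h1]
      refine IsClosed.inter ?_ ?_
      · refine isClosed_iInter fun x => isClosed_iInter fun y => ?_
        refine isClosed_le ?_ continuous_const
        exact (continuous_eval_const x).dist (continuous_eval_const y)
      · refine isClosed_iInter fun x => ?_
        exact isClosed_Icc.preimage (continuous_eval_const x)
    · intro f x hf
      exact hf.2 x
    · refine LipschitzWith.uniformEquicontinuous _ 1 (fun f => f.2.1) |>.equicontinuous
  obtain ⟨t, htA, htf, hcov⟩ := hA.finite_cover_balls hκ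
  obtain ⟨q, hqc, hq⟩ := NT_ret hM1
  refine ⟨(fun f : BoundedContinuousFunction K ℝ => fun x : ℂ => f (q x)) '' t,
    htf.image _, ?_, ?_⟩
  · rintro g ⟨f, hf, rfl⟩
    refine ⟨f.continuous.comp hqc, M, fun x => ?_⟩
    exact abs_le.2 ((htA hf).2 (q x))
  · intro Φ hΦ hΦ0
    have hΦb : ∀ x, |Φ x| ≤ ‖x‖ := by
      intro x
      have := hΦ.dist_le_mul x 0
      simpa [Real.dist_eq, hΦ0] using this
    let f₀ : BoundedContinuousFunction K ℝ :=
      BoundedContinuousFunction.mkOfCompact ⟨fun x : K => Φ x,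
        hΦ.continuous.comp continuous_subtype_val⟩
    have hf₀ : f₀ ∈ A := by
      refine ⟨?_, fun x => abs_le.1 ((hΦb x).trans (mem_closedBall_zero_iff.1 x.2))⟩
      exact LipschitzWith.of_dist_le_mul fun x y => hΦ.dist_le_mul x y
    obtain ⟨f, hft, hff⟩ := mem_iUnion₂.1 (hcov hf₀)
    refine ⟨_, ⟨f, hft, rfl⟩, fun x => ?_⟩
    by_cases hx : ‖x‖ ≤ M
    · have h1 : |f₀ (q x) - f (q x)| ≤ dist f₀ f := by
        rw [← Real.dist_eq]
        exact BoundedContinuousFunction.dist_coe_le_dist _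
      have h2 : f₀ (q x) = Φ x := by
        show Φ (q x : ℂ) = Φ x
        rw [hq x hx]
      rw [h2] at h1
      have h3 : dist f₀ f < κ := hff
      have h4 : (0 : ℝ) ≤ ‖x‖ ^ 2 := by positivity
      simp only
      nlinarith
    · push Not at hx
      have h1 : |f (q x)| ≤ M := abs_le.2 ((htA hft).2 (q x))
      have h2 : |Φ x - f (q x)| ≤ |Φ x| + |f (q x)| := abs_sub _ _
      have h3 := hΦb x
      have h4 : 2 * ‖x‖ ≤ κ * M * ‖x‖ := mul_le_mul_of_nonneg_right hM2 (norm_nonneg _)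
      have h5 : κ * M * ‖x‖ ≤ κ * ‖x‖ * ‖x‖ := by
        refine mul_le_mul_of_nonneg_right ?_ (norm_nonneg _)
        exact mul_le_mul_of_nonneg_left hx.le hκ.le
      simp only
      nlinarith

/-! ### NT (finite net of test functions) -/

theorem NT_net {ε : ℝ} (hε : 0 < ε) : ∃ F : Finset ((ℂ → ℝ) × ℝ),
    (∀ p ∈ F, Continuous p.1 ∧ ∃ C, ∀ x, |p.1 x| ≤ C) ∧
    ∀ ν : ProbabilityMeasure ℂ, ν ∈ KK →
      (∃ Φ : ℂ → ℝ, LipschitzWith 1 Φ ∧ ∃ θ : ℝ,
        ε < |(∫ x, Φ (Complex.exp (θ * Complex.I) * x) ∂(ν : Measure ℂ)) -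
          ∫ x, Φ x ∂(ν : Measure ℂ)|) →
      ∃ p ∈ F, ε / 2 ≤ |(∫ x, p.1 (Complex.exp (p.2 * Complex.I) * x) ∂(ν : Measure ℂ)) -
        ∫ x, p.1 x ∂(ν : Measure ℂ)| := by
  classical
  have hκ : 0 < ε / 16 := by positivity
  obtain ⟨G, hGf, hG, hap⟩ := NT_fun hκ
  obtain ⟨T, hT, hTf, hTc⟩ := (isCompact_sphere (0 : ℂ) 1).finite_cover_balls hκ
  refine ⟨hGf.toFinset ×ˢ (hTf.toFinset.image Complex.arg), ?_, ?_⟩
  · intro p hp
    exact hG p.1 (by simpa using (Finset.mem_product.1 hp).1)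
  rintro ν hν ⟨Φ, hΦ, θ, hθ⟩
  set e : ℂ := Complex.exp (θ * Complex.I) with he
  have hen : ‖e‖ = 1 := by rw [he]; exact Complex.norm_exp_ofReal_mul_I θ
  obtain ⟨a, haT, hea⟩ := mem_iUnion₂.1 (hTc (by simpa using hen : e ∈ Metric.sphere (0 : ℂ) 1))
  have han : ‖a‖ = 1 := by simpa using hT haT
  have haa : Complex.exp (Complex.arg a * Complex.I) = a := by
    have := Complex.norm_mul_exp_arg_mul_I a
    rw [han] at this
    simpa using this
  have hΨ : LipschitzWith 1 (fun x => Φ x - Φ 0) := by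
    refine LipschitzWith.of_dist_le_mul fun x y => ?_
    simpa [Real.dist_eq] using hΦ.dist_le_mul x y
  obtain ⟨g, hgG, hg⟩ := hap _ hΨ (by simp)
  obtain ⟨hgc, C, hC⟩ := hG g hgG
  refine ⟨(g, Complex.arg a), ?_, ?_⟩
  · refine Finset.mem_product.2 ⟨by simpa using hgG, ?_⟩
    exact Finset.mem_image_of_mem _ (by simpa using haT)
  simp only [haa]
  -- integrability of the squares
  have hsq : Integrable (fun x : ℂ => ‖x‖ ^ 2) (ν : Measure ℂ) := by
    refine ⟨(continuous_norm.pow 2).aestronglyMeasurable, ?_⟩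
    refine lt_of_le_of_lt (le_of_eq ?_) (lt_of_le_of_lt hν ENNReal.one_lt_top)
    refine lintegral_congr fun x => ?_
    simp [enorm_pow]
  have hsq1 : ∫ x : ℂ, ‖x‖ ^ 2 ∂(ν : Measure ℂ) ≤ 1 := by
    rw [integral_eq_lintegral_of_nonneg_ae (Eventually.of_forall fun x => by positivity)
      hsq.aestronglyMeasurable]
    refine ENNReal.toReal_le_of_le_ofReal zero_le_one ?_
    rw [ENNReal.ofReal_one]
    refine le_trans (le_of_eq ?_) hν
    refine lintegral_congr fun x => ?_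
    rw [ENNReal.ofReal_pow (norm_nonneg _), ofReal_norm]
  have hw : Integrable (fun x : ℂ => 1 + ‖x‖ ^ 2) (ν : Measure ℂ) :=
    (integrable_const 1).add hsq
  have hw2 : ∫ x : ℂ, (1 + ‖x‖ ^ 2) ∂(ν : Measure ℂ) ≤ 2 := by
    rw [integral_add (integrable_const 1) hsq]
    simp only [integral_const, probReal_univ, smul_eq_mul, mul_one]
    linarith
  have hnb : ∀ x : ℂ, ‖x‖ ≤ (1 / 2) * (1 + ‖x‖ ^ 2) := fun x => by nlinarith [sq_nonneg (‖x‖ - 1)]
  have hΨb : ∀ x, |Φ x - Φ 0| ≤ ‖x‖ := by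
    intro x
    have := hΦ.dist_le_mul x 0
    simpa [Real.dist_eq] using this
  have int1 : ∀ c : ℂ, ‖c‖ = 1 → Integrable (fun x : ℂ => Φ (c * x) - Φ 0) (ν : Measure ℂ) := by
    intro c hc
    refine hw.mono' ?_ (Eventually.of_forall fun x => ?_)
    · exact ((hΦ.continuous.comp (continuous_const.mul continuous_id)).sub
        continuous_const).aestronglyMeasurable
    · have h1 := hΨb (c * x)
      rw [norm_mul, hc, one_mul] at h1
      rw [Real.norm_eq_abs]
      have h2 := hnb x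
      have h3 : (0 : ℝ) ≤ ‖x‖ ^ 2 := by positivity
      linarith
  have int2 : ∀ c : ℂ, Integrable (fun x : ℂ => g (c * x)) (ν : Measure ℂ) := by
    intro c
    refine Integrable.mono' (integrable_const C) ?_ (Eventually.of_forall fun x => ?_)
    · exact (hgc.comp (continuous_const.mul continuous_id)).aestronglyMeasurable
    · rw [Real.norm_eq_abs]
      exact hC _
  have int1' := int1 1 (by simp)
  have int2' := int2 1
  simp only [one_mul] at int1' int2'
  have hE : (∫ x, Φ (e * x) ∂(ν : Measure ℂ)) - ∫ x, Φ x ∂(ν : Measure ℂ) =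
      (∫ x, (Φ (e * x) - Φ 0) ∂(ν : Measure ℂ)) - ∫ x, (Φ x - Φ 0) ∂(ν : Measure ℂ) := by
    have i1 : Integrable (fun x : ℂ => Φ (e * x)) (ν : Measure ℂ) := by
      refine ((int1 e hen).add (integrable_const (Φ 0))).congr (Eventually.of_forall fun x => ?_)
      simp
    have i2 : Integrable (fun x : ℂ => Φ x) (ν : Measure ℂ) := by
      refine (int1'.add (integrable_const (Φ 0))).congr (Eventually.of_forall fun x => ?_)
      simp
    rw [integral_sub i1 (integrable_const _), integral_sub i2 (integrable_const _)]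
    ring
  have hd : ‖e - a‖ < ε / 16 := by
    have : dist e a < ε / 16 := hea
    rwa [dist_eq_norm] at this
  have b1 : |(∫ x, (Φ (e * x) - Φ 0) ∂(ν : Measure ℂ)) - ∫ x, g (a * x) ∂(ν : Measure ℂ)| ≤
      3 * (ε / 16) := by
    rw [← integral_sub (int1 e hen) (int2 a)]
    refine (abs_integral_le_integral_abs).trans ?_
    calc ∫ x, |(Φ (e * x) - Φ 0) - g (a * x)| ∂(ν : Measure ℂ)
        ≤ ∫ x, (3 / 2 * (ε / 16)) * (1 + ‖x‖ ^ 2) ∂(ν : Measure ℂ) := by
          refine integral_mono (((int1 e hen).sub (int2 a)).abs) (hw.const_mul _) fun x => ?_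
          have h1 := hg (a * x)
          rw [norm_mul, han, one_mul] at h1
          have h2 : |Φ (e * x) - Φ (a * x)| ≤ ‖e - a‖ * ‖x‖ := by
            have := hΦ.dist_le_mul (e * x) (a * x)
            rw [Real.dist_eq, dist_eq_norm, ← sub_mul, norm_mul] at this
            simpa using this
          have h3 : ‖e - a‖ * ‖x‖ ≤ (ε / 16) * ((1 / 2) * (1 + ‖x‖ ^ 2)) :=
            mul_le_mul hd.le (hnb x) (norm_nonneg _) hκ.le
          have h4 : (Φ (e * x) - Φ 0) - g (a * x) =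
            (Φ (e * x) - Φ (a * x)) + ((Φ (a * x) - Φ 0) - g (a * x)) := by ring
          simp only
          rw [h4]
          refine (abs_add_le _ _).trans ?_
          linarith
      _ = (3 / 2 * (ε / 16)) * ∫ x, (1 + ‖x‖ ^ 2) ∂(ν : Measure ℂ) := integral_const_mul _ _
      _ ≤ (3 / 2 * (ε / 16)) * 2 := by gcongr
      _ = 3 * (ε / 16) := by ring
  have b2 : |(∫ x, (Φ x - Φ 0) ∂(ν : Measure ℂ)) - ∫ x, g x ∂(ν : Measure ℂ)| ≤
      2 * (ε / 16) := by
    rw [← integral_sub int1' int2']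
    refine (abs_integral_le_integral_abs).trans ?_
    calc ∫ x, |(Φ x - Φ 0) - g x| ∂(ν : Measure ℂ)
        ≤ ∫ x, (ε / 16) * (1 + ‖x‖ ^ 2) ∂(ν : Measure ℂ) := by
          refine integral_mono ((int1'.sub int2').abs) (hw.const_mul _) fun x => ?_
          exact hg x
      _ = (ε / 16) * ∫ x, (1 + ‖x‖ ^ 2) ∂(ν : Measure ℂ) := integral_const_mul _ _
      _ ≤ (ε / 16) * 2 := by gcongr
      _ = 2 * (ε / 16) := by ring
  rw [hE] at hθ
  have h1 := abs_sub_abs_le_abs_sub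
    ((∫ x, (Φ (e * x) - Φ 0) ∂(ν : Measure ℂ)) - ∫ x, (Φ x - Φ 0) ∂(ν : Measure ℂ))
    ((∫ x, g (a * x) ∂(ν : Measure ℂ)) - ∫ x, g x ∂(ν : Measure ℂ))
  have h2 : |((∫ x, (Φ (e * x) - Φ 0) ∂(ν : Measure ℂ)) - ∫ x, (Φ x - Φ 0) ∂(ν : Measure ℂ)) -
      ((∫ x, g (a * x) ∂(ν : Measure ℂ)) - ∫ x, g x ∂(ν : Measure ℂ))| ≤ 5 * (ε / 16) := by
    have : ((∫ x, (Φ (e * x) - Φ 0) ∂(ν : Measure ℂ)) - ∫ x, (Φ x - Φ 0) ∂(ν : Measure ℂ)) -
      ((∫ x, g (a * x) ∂(ν : Measure ℂ)) - ∫ x, g x ∂(ν : Measure ℂ)) =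
      ((∫ x, (Φ (e * x) - Φ 0) ∂(ν : Measure ℂ)) - ∫ x, g (a * x) ∂(ν : Measure ℂ)) -
      ((∫ x, (Φ x - Φ 0) ∂(ν : Measure ℂ)) - ∫ x, g x ∂(ν : Measure ℂ)) := by ring
    rw [this]
    refine (abs_sub _ _).trans ?_
    linarith
  linarith

end

end Pool.Agent.Lib_helper68.MC
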