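import Pool.Agent.Lib_helper68.MC.DefsC
import Pool.Agent.Lib_helper92.MC.NT

/-! Project MC (MP_b08f5f_an, microcanonical): block NU (finite net of smooth test functions). -/

set_option autoImplicit false

namespace Pool.Agent.Lib_helper68.MC

open MeasureTheory Filter Topology Set
open scoped ComplexConjugate ENNReal NNReal
open Pool.Agent.Lib_helper25.PV (Conf vel Motion centre inertia NC VFlow)
open Pool.Agent.Lib_helper12.HE (ham rad nrm Gam sig shell turn one LimAvg)

noncomputable section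

theorem NU_smooth {g : ℂ → ℝ} (hg : Continuous g) (hb : ∃ C, ∀ x, |g x| ≤ C) {κ : ℝ}
    (hκ : 0 < κ) : ∃ h : ℂ → ℝ, Tst h ∧ ∀ x, |g x - h x| ≤ κ * (1 + ‖x‖ ^ 2) := by
  obtain ⟨C, hC⟩ := hb
  obtain ⟨R, hR1, hR2⟩ : ∃ R : ℝ, 1 ≤ R ∧ C ≤ κ * R := by
    refine ⟨max 1 (C / κ), le_max_left _ _, ?_⟩
    calc C = κ * (C / κ) := by field_simp
      _ ≤ κ * max 1 (C / κ) := mul_le_mul_of_nonneg_left (le_max_right _ _) hκ.le
  set χ : ℂ → ℝ := fun x => max 0 (min 1 (R + 1 - ‖x‖)) with hχ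
  have hχc : Continuous χ := by
    rw [hχ]
    exact continuous_const.max (continuous_const.min (continuous_const.sub continuous_norm))
  have hχ0 : ∀ x, 0 ≤ χ x := fun x => le_max_left _ _
  have hχ0' : ∀ x, χ x ≤ 1 := fun x => max_le zero_le_one (min_le_left _ _)
  have hχ1 : ∀ x, ‖x‖ ≤ R → χ x = 1 := by
    intro x hx
    have h1 : min 1 (R + 1 - ‖x‖) = 1 := min_eq_left (by linarith)
    simp only [hχ, h1]
    exact max_eq_right zero_le_one
  have hχ2 : ∀ x, R + 1 < ‖x‖ → χ x = 0 := by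
    intro x hx
    simp only [hχ]
    exact max_eq_left ((min_le_right _ _).trans (by linarith))
  obtain ⟨h, hh, hha, hhs⟩ := Continuous.exists_contDiff_approx (f := fun x => χ x * g x)
    (ε := fun _ => κ) 2 (hχc.mul hg) continuous_const (fun _ => hκ)
  have hcs : HasCompactSupport h := by
    refine HasCompactSupport.intro (isCompact_closedBall (0 : ℂ) (R + 1)) fun x hx => ?_
    by_contra hne
    have h1 : x ∈ Function.support fun x => χ x * g x := hhs hne
    refine h1 ?_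
    have h2 : R + 1 < ‖x‖ := by
      rw [mem_closedBall_zero_iff] at hx
      exact not_le.1 hx
    simp only [hχ2 x h2, zero_mul]
  have hh2 : ContDiff ℝ 2 h := hh
  have hd : ContDiff ℝ 1 (fderiv ℝ h) := hh2.fderiv_right (by norm_num)
  obtain ⟨L, hL⟩ := ContDiff.lipschitzWith_of_hasCompactSupport (hcs.fderiv ℝ) hd one_ne_zero
  refine ⟨h, ⟨hh2.continuous, ?_, hh2.differentiable two_ne_zero, L, fun x y => ?_⟩, fun x => ?_⟩
  · obtain ⟨B, hB⟩ := hcs.exists_bound_of_continuous hh2.continuous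
    exact ⟨B, fun x => by simpa using hB x⟩
  · have := hL.dist_le_mul x y
    rwa [dist_eq_norm, dist_eq_norm] at this
  · have h1 := hha x
    rw [Real.dist_eq] at h1
    have h2 : |g x - χ x * g x| ≤ κ * ‖x‖ ^ 2 := by
      by_cases hx : ‖x‖ ≤ R
      · rw [hχ1 x hx, one_mul, sub_self, abs_zero]
        positivity
      · push Not at hx
        have h3 : g x - χ x * g x = (1 - χ x) * g x := by ring
        rw [h3, abs_mul, abs_of_nonneg (by linarith [hχ0' x])]
        have h4 : (1 - χ x) * |g x| ≤ 1 * C :=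
          mul_le_mul (by linarith [hχ0 x]) (hC x) (abs_nonneg _) zero_le_one
        have h5 : κ * R ≤ κ * ‖x‖ ^ 2 := by
          refine mul_le_mul_of_nonneg_left ?_ hκ.le
          nlinarith
        linarith
    have h3 : g x - h x = (g x - χ x * g x) - (h x - χ x * g x) := by ring
    rw [h3]
    refine (abs_sub _ _).trans ?_
    linarith

/-! ### NU (finite net of smooth test functions) -/

theorem NU_net {ε : ℝ} (hε : 0 < ε) : ∃ F : Finset ((ℂ → ℝ) × ℝ), (∀ p ∈ F, Tst p.1) ∧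
    ∀ N : ℕ, 1 ≤ N → ∀ y : Conf N, y ∈ Gam N → Far ε y → Bd F (ε / 4) y := by
  classical
  have hκ : 0 < ε / 16 := by positivity
  obtain ⟨G, hGf, hG, hap⟩ := NT_fun hκ
  obtain ⟨T, hT, hTf, hTc⟩ := (isCompact_sphere (0 : ℂ) 1).finite_cover_balls hκ
  choose! S hS using fun g (hg : g ∈ G) => NU_smooth (hG g hg).1 (hG g hg).2 hκ
  refine ⟨(hGf.toFinset.image S) ×ˢ (hTf.toFinset.image Complex.arg), ?_, ?_⟩
  · intro p hp
    obtain ⟨g, hg, hgp⟩ := Finset.mem_image.1 (Finset.mem_product.1 hp).1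
    rw [← hgp]
    exact (hS g (by simpa using hg)).1
  rintro N hN y hy ⟨Φ, hΦ, θ, hθ⟩
  set e : ℂ := Complex.exp (θ * Complex.I) with he
  have hen : ‖e‖ = 1 := by rw [he]; exact Complex.norm_exp_ofReal_mul_I θ
  obtain ⟨a, haT, hea⟩ := mem_iUnion₂.1 (hTc (by simpa using hen : e ∈ Metric.sphere (0 : ℂ) 1))
  have han : ‖a‖ = 1 := by simpa using hT haT
  have haa : Complex.exp (Complex.arg a * Complex.I) = a := by
    have := Complex.norm_mul_exp_arg_mul_I a
    rw [han] at this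
    simpa using this
  have hΨ : LipschitzWith 1 (fun x => Φ x - Φ 0) := by
    refine LipschitzWith.of_dist_le_mul fun x y => ?_
    simpa [Real.dist_eq] using hΦ.dist_le_mul x y
  obtain ⟨g, hgG, hg⟩ := hap _ hΨ (by simp)
  obtain ⟨-, hh⟩ := hS g hgG
  refine ⟨(S g, Complex.arg a), ?_, ?_⟩
  · refine Finset.mem_product.2 ⟨Finset.mem_image_of_mem _ (by simpa using hgG), ?_⟩
    exact Finset.mem_image_of_mem _ (by simpa using haT)
  -- pointwise bound
  have hd : ‖e - a‖ < ε / 16 := by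
    have : dist e a < ε / 16 := hea
    rwa [dist_eq_norm] at this
  have pt : ∀ x : ℂ, |(Φ (e * x) - Φ x) - (S g (a * x) - S g x)| ≤
      (9 / 2 * (ε / 16)) * (1 + ‖x‖ ^ 2) := by
    intro x
    have n1 : ‖a * x‖ = ‖x‖ := by rw [norm_mul, han, one_mul]
    have h1 := hg (a * x)
    have h2 := hh (a * x)
    have h3 := hg x
    have h4 := hh x
    rw [n1] at h1 h2
    have h5 : |Φ (e * x) - Φ (a * x)| ≤ ‖e - a‖ * ‖x‖ := by
      have := hΦ.dist_le_mul (e * x) (a * x)
      rw [Real.dist_eq, dist_eq_norm, ← sub_mul, norm_mul] at this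
      simpa using this
    have h6 : ‖x‖ ≤ (1 / 2) * (1 + ‖x‖ ^ 2) := by nlinarith [sq_nonneg (‖x‖ - 1)]
    have h7 : ‖e - a‖ * ‖x‖ ≤ (ε / 16) * ((1 / 2) * (1 + ‖x‖ ^ 2)) :=
      mul_le_mul hd.le h6 (norm_nonneg _) hκ.le
    rw [abs_le] at h1 h2 h3 h4 h5 ⊢
    constructor <;> linarith [h1.1, h1.2, h2.1, h2.2, h3.1, h3.2, h4.1, h4.2, h5.1, h5.2]
  have hN0 : (0 : ℝ) < N := by exact_mod_cast hN
  have hsum : (∑ i, (1 + ‖y i‖ ^ 2)) = 2 * (N : ℝ) := by
    have h1 := hy.2.2
    rw [div_eq_iff hN0.ne', one_mul] at h1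
    rw [Finset.sum_add_distrib, h1]
    simp
    ring
  have key : |(one N Φ (turn θ y) - one N Φ y) -
      (one N (S g) (turn (Complex.arg a) y) - one N (S g) y)| ≤ 9 * (ε / 16) := by
    have h1 : (one N Φ (turn θ y) - one N Φ y) -
        (one N (S g) (turn (Complex.arg a) y) - one N (S g) y) =
        (∑ i, ((Φ (e * y i) - Φ (y i)) - (S g (a * y i) - S g (y i)))) / N := by
      simp only [one, turn, haa, ← he, Finset.sum_sub_distrib]
      ring
    rw [h1, abs_div, abs_of_pos hN0, div_le_iff₀ hN0]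
    calc |∑ i, ((Φ (e * y i) - Φ (y i)) - (S g (a * y i) - S g (y i)))|
        ≤ ∑ i, |(Φ (e * y i) - Φ (y i)) - (S g (a * y i) - S g (y i))| :=
          Finset.abs_sum_le_sum_abs _ _
      _ ≤ ∑ i, (9 / 2 * (ε / 16)) * (1 + ‖y i‖ ^ 2) := Finset.sum_le_sum fun i _ => pt (y i)
      _ = 9 * (ε / 16) * N := by
          rw [← Finset.mul_sum, hsum]
          ring
  have h2 := abs_sub_abs_le_abs_sub (one N Φ (turn θ y) - one N Φ y)
    (one N (S g) (turn (Complex.arg a) y) - one N (S g) y)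
  simp only
  linarith

end

end Pool.Agent.Lib_helper68.MC
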