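import Pool.Agent.Lib_helper68.MC.DefsD
import Pool.Agent.Lib_helper92.MC.NU

/-! Project MC (MP_b08f5f_an, microcanonical): block N2 (finite net of smooth test functions for
the distance to `ρ`). -/

set_option autoImplicit false

namespace Pool.Agent.Lib_helper68.MC

open MeasureTheory Filter Topology Set
open scoped ComplexConjugate ENNReal NNReal
open Pool.Agent.Lib_helper25.PV (Conf vel Motion centre inertia NC VFlow)
open Pool.Agent.Lib_helper12.HE (ham rad nrm Gam sig shell turn one LimAvg)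

noncomputable section

theorem N2_net {ρ : ℂ → ℝ} (h : Dens ρ) (hm : mo ρ ≤ 1) {ε : ℝ} (hε : 0 < ε) :
    ∃ F : Finset (ℂ → ℝ), (∀ Φ ∈ F, Tst Φ) ∧ ∀ N : ℕ, 1 ≤ N → ∀ y : Conf N, y ∈ Gam N →
      Off ρ ε y → ∃ Φ ∈ F, ε / 4 ≤ |one N Φ y - ∫ x, Φ x * ρ x| := by
  classical
  have hκ : 0 < ε / 16 := by positivity
  obtain ⟨G, hGf, hG, hap⟩ := NT_fun hκ
  choose! S hS using fun g (hg : g ∈ G) => NU_smooth (hG g hg).1 (hG g hg).2 hκ
  refine ⟨hGf.toFinset.image S, ?_, ?_⟩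
  · intro p hp
    obtain ⟨g, hg, hgp⟩ := Finset.mem_image.1 hp
    rw [← hgp]
    exact (hS g (by simpa using hg)).1
  rintro N hN y hy ⟨Φ, hΦ, hθ⟩
  have hΨ : LipschitzWith 1 (fun x => Φ x - Φ 0) := by
    refine LipschitzWith.of_dist_le_mul fun x y => ?_
    simpa [Real.dist_eq] using hΦ.dist_le_mul x y
  obtain ⟨g, hgG, hg⟩ := hap _ hΨ (by simp)
  obtain ⟨hT, hh⟩ := hS g hgG
  refine ⟨S g, Finset.mem_image_of_mem _ (by simpa using hgG), ?_⟩
  -- pointwise bound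
  have pt : ∀ x : ℂ, |(Φ x - Φ 0) - S g x| ≤ (2 * (ε / 16)) * (1 + ‖x‖ ^ 2) := by
    intro x
    have h3 := hg x
    have h4 := hh x
    rw [abs_le] at h3 h4 ⊢
    constructor <;> linarith [h3.1, h3.2, h4.1, h4.2]
  have hN0 : (0 : ℝ) < N := by exact_mod_cast hN
  have hsum : (∑ i, (1 + ‖y i‖ ^ 2)) = 2 * (N : ℝ) := by
    have h1 := hy.2.2
    rw [div_eq_iff hN0.ne', one_mul] at h1
    rw [Finset.sum_add_distrib, h1]
    simp
    ring
  have key1 : |(one N Φ y - Φ 0) - one N (S g) y| ≤ 4 * (ε / 16) := by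
    have h1 : (one N Φ y - Φ 0) - one N (S g) y =
        (∑ i, ((Φ (y i) - Φ 0) - S g (y i))) / N := by
      simp only [one, Finset.sum_sub_distrib, Finset.sum_const, Finset.card_univ,
        Fintype.card_fin, nsmul_eq_mul]
      field_simp
    rw [h1, abs_div, abs_of_pos hN0, div_le_iff₀ hN0]
    calc |∑ i, ((Φ (y i) - Φ 0) - S g (y i))|
        ≤ ∑ i, |(Φ (y i) - Φ 0) - S g (y i)| := Finset.abs_sum_le_sum_abs _ _
      _ ≤ ∑ i, (2 * (ε / 16)) * (1 + ‖y i‖ ^ 2) := Finset.sum_le_sum fun i _ => pt (y i)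
      _ = 4 * (ε / 16) * N := by
          rw [← Finset.mul_sum, hsum]
          ring
  -- the integrals
  have hΨb : ∀ x, |Φ x - Φ 0| ≤ ‖x‖ := by
    intro x
    have := hΦ.dist_le_mul x 0
    simpa [Real.dist_eq] using this
  have hnb : ∀ x : ℂ, ‖x‖ ≤ 1 + ‖x‖ ^ 2 := fun x => by nlinarith [sq_nonneg (‖x‖ - 1)]
  have hw : Integrable fun x : ℂ => (1 + ‖x‖ ^ 2) * ρ x := by
    refine (h.int.add h.mom).congr (Eventually.of_forall fun x => ?_)
    simp only [Pi.add_apply]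
    ring
  have hw2 : ∫ x : ℂ, (1 + ‖x‖ ^ 2) * ρ x ≤ 2 := by
    have h1 : ∫ x : ℂ, (1 + ‖x‖ ^ 2) * ρ x = (∫ x, ρ x) + ∫ x : ℂ, ‖x‖ ^ 2 * ρ x := by
      rw [← integral_add h.int h.mom]
      refine integral_congr_ae (Eventually.of_forall fun x => ?_)
      simp only
      ring
    rw [h1, h.one]
    have : ∫ x : ℂ, ‖x‖ ^ 2 * ρ x ≤ 1 := hm
    linarith
  have i1 : Integrable fun x : ℂ => (Φ x - Φ 0) * ρ x := by
    refine hw.mono' ?_ (Eventually.of_forall fun x => ?_)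
    · exact ((hΦ.continuous.sub continuous_const).aestronglyMeasurable).mul
        h.int.aestronglyMeasurable
    · rw [Real.norm_eq_abs, abs_mul, abs_of_nonneg (h.nonneg x)]
      exact mul_le_mul_of_nonneg_right ((hΨb x).trans (hnb x)) (h.nonneg x)
  obtain ⟨C, hC⟩ := hT.2.1
  have i2 : Integrable fun x : ℂ => S g x * ρ x := by
    refine (h.int.const_mul C).mono' ?_ (Eventually.of_forall fun x => ?_)
    · exact (hT.1.aestronglyMeasurable).mul h.int.aestronglyMeasurable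
    · rw [Real.norm_eq_abs, abs_mul, abs_of_nonneg (h.nonneg x)]
      exact mul_le_mul_of_nonneg_right (hC x) (h.nonneg x)
  have e1 : (∫ x, Φ x * ρ x) - Φ 0 = ∫ x, (Φ x - Φ 0) * ρ x := by
    have i3 : Integrable fun x : ℂ => Φ x * ρ x := by
      refine (i1.add (h.int.const_mul (Φ 0))).congr (Eventually.of_forall fun x => ?_)
      simp only [Pi.add_apply]
      ring
    have h2 : ∫ x, (Φ x - Φ 0) * ρ x = (∫ x, Φ x * ρ x) - ∫ x, Φ 0 * ρ x := by
      rw [← integral_sub i3 (h.int.const_mul (Φ 0))]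
      refine integral_congr_ae (Eventually.of_forall fun x => ?_)
      simp only
      ring
    rw [h2, integral_const_mul, h.one, mul_one]
  have key2 : |((∫ x, Φ x * ρ x) - Φ 0) - ∫ x, S g x * ρ x| ≤ 4 * (ε / 16) := by
    rw [e1, ← integral_sub i1 i2]
    refine abs_integral_le_integral_abs.trans ?_
    calc ∫ x, |(Φ x - Φ 0) * ρ x - S g x * ρ x|
        ≤ ∫ x, (2 * (ε / 16)) * ((1 + ‖x‖ ^ 2) * ρ x) := by
          refine integral_mono ((i1.sub i2).abs) (hw.const_mul _) fun x => ?_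
          simp only
          rw [← sub_mul, abs_mul, abs_of_nonneg (h.nonneg x), ← mul_assoc]
          exact mul_le_mul_of_nonneg_right (pt x) (h.nonneg x)
      _ = (2 * (ε / 16)) * ∫ x, (1 + ‖x‖ ^ 2) * ρ x := integral_const_mul _ _
      _ ≤ (2 * (ε / 16)) * 2 := by gcongr
      _ = 4 * (ε / 16) := by ring
  have h1 := abs_sub_abs_le_abs_sub (one N Φ y - ∫ x, Φ x * ρ x)
    (one N (S g) y - ∫ x, S g x * ρ x)
  have h2 : |(one N Φ y - ∫ x, Φ x * ρ x) - (one N (S g) y - ∫ x, S g x * ρ x)| ≤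
      8 * (ε / 16) := by
    have : (one N Φ y - ∫ x, Φ x * ρ x) - (one N (S g) y - ∫ x, S g x * ρ x) =
        ((one N Φ y - Φ 0) - one N (S g) y) -
        (((∫ x, Φ x * ρ x) - Φ 0) - ∫ x, S g x * ρ x) := by ring
    rw [this]
    refine (abs_sub _ _).trans ?_
    linarith
  linarith

end

end Pool.Agent.Lib_helper68.MC
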